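import Pool.Agent.H32.CH.Targets

namespace Pool.Agent.H81.CH.RE

open Finset Pool.Agent.H32.CH
open scoped Classical

theorem pf_RE (h1 : T_CX) : T_RE := by
  intro V _ G A v hA hB
  have key : ∀ X : Finset V, (∀ K, Comp G X K → K.card ≤ 5) → v ∈ X →
      (∀ x y, (x ∈ A ↔ y ∈ A) → x ∈ X → y ∈ X) →
      Nat.card {w // (mono G (fun x => decide (x ∈ A))).Reachable v w} ≤ 5 := by
    intro X hX hv hc
    obtain ⟨K, hK, hvK⟩ := h1 V G X v hv
    have hmem : ∀ w, (mono G (fun x => decide (x ∈ A))).Reachable v w → w ∈ K := by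
      intro w hw
      rw [SimpleGraph.reachable_iff_reflTransGen] at hw
      induction hw with
      | refl => exact hvK
      | tail _ hadj ih =>
        obtain ⟨ha, hb⟩ := hadj
        exact hK.2.2 _ ih _ (hc _ _ (decide_eq_decide.mp hb) (hK.1 ih)) ha
    have h2 : Nat.card {w // (mono G (fun x => decide (x ∈ A))).Reachable v w} ≤ Nat.card K := by
      apply Nat.card_le_card_of_injective
        (fun w : {w // (mono G (fun x => decide (x ∈ A))).Reachable v w} =>
          (⟨w.1, hmem w.1 w.2⟩ : K))
      intro a b hab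
      exact Subtype.ext (congrArg (fun z : K => z.1) hab)
    rw [Nat.card_eq_fintype_card (α := K), Fintype.card_coe] at h2
    exact h2.trans (hX K hK)
  by_cases hv : v ∈ A
  · exact key A hA hv (fun x y h hx => h.mp hx)
  · refine key Aᶜ hB (mem_compl.mpr hv) (fun x y h hx => ?_)
    rw [mem_compl] at hx ⊢
    exact fun hy => hx (h.mpr hy)

end Pool.Agent.H81.CH.RE
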