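import Pool.Agent.H32.CH.Targets

namespace Pool.Agent.H81.CH.VB

open Finset Pool.Agent.H32.CH
open scoped Classical

variable {V : Type} [Fintype V]

omit [Fintype V] in
/-- a connected set is contained in every closed set that it meets -/
theorem cl {G : SimpleGraph V} {W K : Finset V} (hK : Comp G W K) (L : Finset V) (x₀ : V)
    (h1 : x₀ ∈ K) (h2 : x₀ ∈ L) (h : ∀ x ∈ L, x ∈ K → ∀ y ∈ K, G.Adj x y → y ∈ L) :
    K.card ≤ L.card := by
  have h3 : K ∩ L = K := by
    apply hK.2.1.2 (K ∩ L) inter_subset_left ⟨x₀, mem_inter.mpr ⟨h1, h2⟩⟩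
    intro x hx y hy hxy
    rw [mem_inter] at hx ⊢
    exact ⟨hy, h x hx.2 hx.1 y hy hxy⟩
  apply card_le_card
  rw [← h3]
  exact inter_subset_right

/-- the other neighbour -/
theorem oth {G : SimpleGraph V} {X : Finset V} {v a : V} (h : dg G X v = 2) (ha : a ∈ X)
    (hva : G.Adj v a) : ∃ b ∈ X, b ≠ a ∧ G.Adj v b ∧ ∀ c ∈ X, G.Adj v c → c = a ∨ c = b := by
  obtain ⟨x, y, hxy, hx, hy, hvx, hvy, hc⟩ := dg_two h
  rcases hc a ha hva with rfl | rfl
  · exact ⟨y, hy, hxy.symm, hvy, hc⟩
  · exact ⟨x, hx, hxy, hvx, fun c h1 h2 => (hc c h1 h2).symm⟩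

theorem pf_VB (h3 : T_M3) (h5 : T_M5) (h2 : T_M2) : T_VB := by
  intro V _ G A S M hD hT hE hSA hS2 hSi hSD hMT hMm K hK
  have hsub := hK.1
  -- neighbours outside `A` of a vertex outside `A`
  have uniq : ∀ k y y', k ∉ A → y ∉ A → y' ∉ A → G.Adj k y → G.Adj k y' → y = y' := by
    intro k y y' hk hy hy' h h'
    by_contra hne
    have h4 := h3 V G A hD hE k hk
    have h6 := dg_ge_two hne (mem_compl.mpr hy) (mem_compl.mpr hy') h h'
    omega
  have hout : ∀ y ∈ K, y ∉ S → y ∉ A := by
    intro y hy hyS
    have := hsub hy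
    rw [mem_union] at this
    exact mem_compl.mp (this.resolve_right hyS)
  by_cases hKS : ∃ s ∈ S, s ∈ K
  · obtain ⟨s, hs, hsK⟩ := hKS
    have hsA := hSA hs
    have hs2 : dg G Aᶜ s = 2 := ((h2 V G A hD hE.1).1 s hsA (hS2 s hs)).1
    have hTk : ∀ x ∈ S, Tk G A x := fun x hx => ⟨hSA hx, hS2 x hx⟩
    -- conflicts
    have hcon : ∀ x ∈ S, ∀ y ∈ S, x ≠ y → ∀ b b', b ∉ A → b' ∉ A → (b = b' ∨ G.Adj b b') →
        G.Adj x b → G.Adj y b' → M.Adj x y := by
      intro x hx y hy hxy b b' hb hb' hbb h h'
      exact hSD x hx y hy ⟨hxy, hTk x hx, hTk y hy, b, b', hb, hb', hbb, h, h'⟩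
    by_cases hTT : TT G A s
    · obtain ⟨-, b, hb, hsb⟩ := id hTT
      obtain ⟨b', hb'A, hbb'⟩ := dg_pos.mp (Nat.pos_of_ne_zero hb.2)
      rw [mem_compl] at hb'A
      obtain ⟨k, hkA, hkb, hsk, hsall⟩ := oth hs2 (mem_compl.mpr hb.1) hsb
      rw [mem_compl] at hkA
      have hk0 : dg G Aᶜ k = 0 := by
        by_contra hne
        exact h5 V G A hD hT hE s b k (hTk s hs) hb ⟨hkA, hne⟩ hkb.symm hsb hsk
      have hno : ∀ y ∈ S, ∀ c c', c ∉ A → c' ∉ A → (c = c' ∨ G.Adj c c') → G.Adj s c →
          G.Adj y c' → y = s := by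
        intro y hy c c' hc hc' hcc h h'
        by_contra hne
        exact (hMT s y (hcon s hs y hy (Ne.symm hne) c c' hc hc' hcc h h')).1 hTT
      have hcard : ({s, b, b', k} : Finset V).card ≤ 4 := card_le_four
      refine (cl hK {s, b, b', k} s hsK (by simp) ?_).trans (hcard.trans (by norm_num))
      intro z hz hzK y hyK hzy
      simp only [mem_insert, mem_singleton] at hz ⊢
      rcases hz with rfl | rfl | rfl | rfl
      · by_cases hyS : y ∈ S
        · exact absurd hzy (hSi _ hs _ hyS)
        · rcases hsall y (mem_compl.mpr (hout y hyK hyS)) hzy with rfl | rfl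
          · right; left; rfl
          · right; right; right; rfl
      · by_cases hyS : y ∈ S
        · left
          exact hno y hyS z z hb.1 hb.1 (Or.inl rfl) hsb hzy.symm
        · right; right; left
          exact uniq z y b' hb.1 (hout y hyK hyS) hb'A hzy hbb'
      · by_cases hyS : y ∈ S
        · left
          exact hno y hyS b z hb.1 hb'A (Or.inr hbb') hsb hzy.symm
        · right; left
          exact uniq z y b hb'A (hout y hyK hyS) hb.1 hzy hbb'.symm
      · by_cases hyS : y ∈ S
        · left
          exact hno y hyS z z hkA hkA (Or.inl rfl) hsk hzy.symm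
        · exact absurd hzy (dg_eq_zero.mp hk0 y (mem_compl.mpr (hout y hyK hyS)))
    · -- `s` is not a T-vertex
      have hnK : ∀ x ∈ S, ¬ TT G A x → ∀ k, k ∉ A → G.Adj x k → ∀ y, y ∉ A → ¬ G.Adj k y := by
        intro x hx hxT k hk hxk y hy hky
        apply hxT
        refine ⟨hTk x hx, k, ⟨hk, ?_⟩, hxk⟩
        intro h0
        exact dg_eq_zero.mp h0 y (mem_compl.mpr hy) hky
      by_cases hex : ∃ t ∈ S, t ≠ s ∧ ∃ k, k ∉ A ∧ G.Adj s k ∧ G.Adj t k
      · obtain ⟨t, ht, hts, k, hkA, hsk, htk⟩ := hex
        have hMst : M.Adj s t := hcon s hs t ht (Ne.symm hts) k k hkA hkA (Or.inl rfl) hsk htk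
        have htT : ¬ TT G A t := (hMT s t hMst).2
        have ht2 : dg G Aᶜ t = 2 := ((h2 V G A hD hE.1).1 t (hSA ht) (hS2 t ht)).1
        obtain ⟨k', hk'A, -, hsk', hsall⟩ := oth hs2 (mem_compl.mpr hkA) hsk
        obtain ⟨l, hlA, -, htl, htall⟩ := oth ht2 (mem_compl.mpr hkA) htk
        rw [mem_compl] at hk'A hlA
        have hS1 : ∀ y ∈ S, ∀ c, c ∉ A → G.Adj s c → G.Adj y c → y = s ∨ y = t := by
          intro y hy c hc h h'
          by_cases hys : y = s
          · left; exact hys
          · right
            exact hMm s y t (hcon s hs y hy (Ne.symm hys) c c hc hc (Or.inl rfl) h h') hMst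
        have hS2' : ∀ y ∈ S, ∀ c, c ∉ A → G.Adj t c → G.Adj y c → y = s ∨ y = t := by
          intro y hy c hc h h'
          by_cases hyt : y = t
          · right; exact hyt
          · left
            exact hMm t y s (hcon t ht y hy (Ne.symm hyt) c c hc hc (Or.inl rfl) h h') hMst.symm
        have hcard : ({s, t, k, k', l} : Finset V).card ≤ 5 := card_le_five
        refine (cl hK {s, t, k, k', l} s hsK (by simp) ?_).trans hcard
        intro z hz hzK y hyK hzy
        simp only [mem_insert, mem_singleton] at hz ⊢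
        rcases hz with rfl | rfl | rfl | rfl | rfl
        · by_cases hyS : y ∈ S
          · exact absurd hzy (hSi _ hs _ hyS)
          · rcases hsall y (mem_compl.mpr (hout y hyK hyS)) hzy with rfl | rfl
            · right; right; left; rfl
            · right; right; right; left; rfl
        · by_cases hyS : y ∈ S
          · exact absurd hzy (hSi _ ht _ hyS)
          · rcases htall y (mem_compl.mpr (hout y hyK hyS)) hzy with rfl | rfl
            · right; right; left; rfl
            · right; right; right; right; rfl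
        · by_cases hyS : y ∈ S
          · rcases hS1 y hyS z hkA hsk hzy.symm with h | h
            · left; exact h
            · right; left; exact h
          · exact absurd hzy (hnK s hs hTT z hkA hsk y (hout y hyK hyS))
        · by_cases hyS : y ∈ S
          · rcases hS1 y hyS z hk'A hsk' hzy.symm with h | h
            · left; exact h
            · right; left; exact h
          · exact absurd hzy (hnK s hs hTT z hk'A hsk' y (hout y hyK hyS))
        · by_cases hyS : y ∈ S
          · rcases hS2' y hyS z hlA htl hzy.symm with h | h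
            · left; exact h
            · right; left; exact h
          · exact absurd hzy (hnK t ht htT z hlA htl y (hout y hyK hyS))
      · obtain ⟨k1, k2, -, hk1, hk2, hsk1, hsk2, hsall⟩ := dg_two hs2
        rw [mem_compl] at hk1 hk2
        have hS1 : ∀ y ∈ S, ∀ c, c ∉ A → G.Adj s c → G.Adj y c → y = s := by
          intro y hy c hc h h'
          by_contra hne
          exact hex ⟨y, hy, hne, c, hc, h, h'⟩
        have hcard : ({s, k1, k2} : Finset V).card ≤ 3 := card_le_three
        refine (cl hK {s, k1, k2} s hsK (by simp) ?_).trans (hcard.trans (by norm_num))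
        intro z hz hzK y hyK hzy
        simp only [mem_insert, mem_singleton] at hz ⊢
        rcases hz with rfl | rfl | rfl
        · by_cases hyS : y ∈ S
          · exact absurd hzy (hSi _ hs _ hyS)
          · right
            exact hsall y (mem_compl.mpr (hout y hyK hyS)) hzy
        · by_cases hyS : y ∈ S
          · left
            exact hS1 y hyS z hk1 hsk1 hzy.symm
          · exact absurd hzy (hnK s hs hTT z hk1 hsk1 y (hout y hyK hyS))
        · by_cases hyS : y ∈ S
          · left
            exact hS1 y hyS z hk2 hsk2 hzy.symm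
          · exact absurd hzy (hnK s hs hTT z hk2 hsk2 y (hout y hyK hyS))
  · push Not at hKS
    have hKA : ∀ y ∈ K, y ∉ A := fun y hy => hout y hy (fun h => hKS y h hy)
    obtain ⟨x, hx⟩ := hK.2.1.1
    by_cases hn : ∃ x' ∈ K, G.Adj x x'
    · obtain ⟨x', hx', hxx'⟩ := hn
      have hcard : ({x, x'} : Finset V).card ≤ 2 := card_le_two
      refine (cl hK {x, x'} x hx (by simp) ?_).trans (hcard.trans (by norm_num))
      intro z hz hzK y hyK hzy
      simp only [mem_insert, mem_singleton] at hz ⊢
      rcases hz with rfl | rfl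
      · right
        exact uniq z y x' (hKA _ hx) (hKA _ hyK) (hKA _ hx') hzy hxx'
      · left
        exact uniq z y x (hKA _ hx') (hKA _ hyK) (hKA _ hx) hzy hxx'.symm
    · push Not at hn
      refine (cl hK {x} x hx (by simp) ?_).trans (by rw [card_singleton]; norm_num)
      intro z hz hzK y hyK hzy
      rw [mem_singleton] at hz
      subst hz
      exact absurd hzy (hn y hyK)

end Pool.Agent.H81.CH.VB
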